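import Mathlib

/-! Selection of groups of separated pairs by a potential (method of conditional expectations). -/

namespace Pool.Agent.H72.PR

open Finset

section Core

variable {V : Type} [Fintype V] [DecidableEq V]

/-- The vertices near the chosen pairs. -/
def blk (near : V → Finset V) : List (V × V × ℕ) → Finset V
  | [] => ∅
  | p :: L => near p.1 ∪ near p.2.1 ∪ blk near L

/-- The pairs are separated. -/
def Good (near : V → Finset V) : List (V × V × ℕ) → Prop
  | [] => True
  | p :: L => (p.1 ∉ blk near L ∧ p.2.1 ∉ blk near L ∧ p.2.1 ∉ near p.1) ∧ Good near L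

/-- `x` is complete to a pair of the group `k`. -/
def Cov (N : V → Finset V) (L : List (V × V × ℕ)) (k : ℕ) (x : V) : Prop :=
  ∃ p ∈ L, p.2.2 = k ∧ p.1 ∈ N x ∧ p.2.1 ∈ N x

/-- The pair `a, b` can be added. -/
def Acc (near : V → Finset V) (L : List (V × V × ℕ)) (a b : V) : Prop :=
  a ∉ blk near L ∧ b ∉ blk near L ∧ b ∉ near a

/-- number of blocked neighbours -/
def cc (near : V → Finset V) (N : V → Finset V) (L : List (V × V × ℕ)) (x : V) : ℕ :=
  (N x ∩ blk near L).card

omit [Fintype V] in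
theorem cc_step (near : V → Finset V) (N : V → Finset V) (L : List (V × V × ℕ)) (a b : V) (k : ℕ)
    (x : V) :
    cc near N ((a, b, k) :: L) x ≤
      cc near N L x + (N x ∩ near a).card + (N x ∩ near b).card := by
  have h : N x ∩ blk near ((a, b, k) :: L) ⊆
      (N x ∩ blk near L) ∪ (N x ∩ near a) ∪ (N x ∩ near b) := by
    intro v hv
    simp only [blk, Finset.mem_inter, Finset.mem_union] at hv ⊢
    tauto
  calc cc near N ((a, b, k) :: L) x ≤ _ := Finset.card_le_card h
    _ ≤ _ := Finset.card_union_le _ _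
    _ ≤ _ := Nat.add_le_add_right (Finset.card_union_le _ _) _

theorem two_pow_le (X : ℕ) (hX : X ≤ 5) : (2 : ℝ) ^ X ≤ 1 + 7 * X := by
  interval_cases X <;> norm_num

/-- The average of `2 ^ |N x ∩ near a|`. -/
theorem sum_pow_le (near : V → Finset V) (hcard : ∀ a, (near a).card ≤ 5)
    (hsymm : ∀ a b, a ∈ near b → b ∈ near a) (S : Finset V) :
    ∑ a : V, (2 : ℝ) ^ (S ∩ near a).card ≤ Fintype.card V + 35 * S.card := by
  have h1 : ∀ a : V, (2 : ℝ) ^ (S ∩ near a).card ≤ 1 + 7 * ((S ∩ near a).card : ℝ) := fun a =>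
    two_pow_le _ ((Finset.card_le_card Finset.inter_subset_right).trans (hcard a))
  have h2 : ∑ a : V, (S ∩ near a).card ≤ 5 * S.card := by
    have h3 : ∀ a : V, (S ∩ near a).card = ∑ y ∈ S, if y ∈ near a then 1 else 0 := by
      intro a
      rw [← Finset.filter_mem_eq_inter, Finset.card_filter]
    calc ∑ a : V, (S ∩ near a).card = ∑ a : V, ∑ y ∈ S, if y ∈ near a then 1 else 0 :=
          Finset.sum_congr rfl (fun a _ => h3 a)
      _ = ∑ y ∈ S, ∑ a : V, if y ∈ near a then 1 else 0 := Finset.sum_comm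
      _ ≤ ∑ y ∈ S, 5 := by
          refine Finset.sum_le_sum ?_
          intro y _
          rw [← Finset.card_filter]
          refine (Finset.card_le_card ?_).trans (hcard y)
          intro a ha
          exact hsymm _ _ (Finset.mem_filter.mp ha).2
      _ = 5 * S.card := by rw [Finset.sum_const, smul_eq_mul, mul_comm]
  calc ∑ a : V, (2 : ℝ) ^ (S ∩ near a).card ≤ ∑ a : V, (1 + 7 * ((S ∩ near a).card : ℝ)) :=
        Finset.sum_le_sum (fun a _ => h1 a)
    _ = Fintype.card V + 7 * ((∑ a : V, (S ∩ near a).card : ℕ) : ℝ) := by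
        rw [Finset.sum_add_distrib, ← Finset.mul_sum]
        push_cast
        simp
    _ ≤ Fintype.card V + 7 * ((5 * S.card : ℕ) : ℝ) := by
        have : ((∑ a : V, (S ∩ near a).card : ℕ) : ℝ) ≤ ((5 * S.card : ℕ) : ℝ) := by
          exact_mod_cast h2
        linarith
    _ = Fintype.card V + 35 * S.card := by push_cast; ring

open Classical in
/-- The number of good pairs for `x`. -/
theorem good_pairs (near : V → Finset V) (hcard : ∀ a, (near a).card ≤ 5)
    (N : V → Finset V) (L : List (V × V × ℕ)) (d : ℕ) (hd : 60 ≤ d) (x : V)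
    (hN : (N x).card = d) (hc : 2 * cc near N L x ≤ d) :
    ((d : ℝ) / 3) ^ 2 ≤ ∑ a : V, ∑ b : V,
      (if (Acc near L a b ∧ a ∈ N x ∧ b ∈ N x) then (1 : ℝ) else 0) := by
  set A : Finset V := N x \ blk near L with hA
  have hAcard : (d : ℝ) / 2 ≤ A.card := by
    have h1 : A.card + cc near N L x = d := by
      rw [← hN, hA, cc]
      exact Finset.card_sdiff_add_card_inter _ _
    have h2 : (A.card : ℝ) + cc near N L x = d := by exact_mod_cast h1
    have h3 : (2 : ℝ) * cc near N L x ≤ d := by exact_mod_cast hc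
    linarith
  have hd' : (60 : ℝ) ≤ d := by exact_mod_cast hd
  have hsd : ∀ (S : Finset V) (a : V), (S.card : ℝ) - 5 ≤ (S \ near a).card := by
    intro S a
    have h1 : S.card ≤ (S \ near a).card + (near a).card :=
      (Finset.card_le_card_sdiff_add_card)
    have h2 := hcard a
    have h3 : (S.card : ℝ) ≤ (S \ near a).card + 5 := by
      exact_mod_cast h1.trans (Nat.add_le_add_left h2 _)
    linarith
  have hin : ∀ a ∈ A, (d : ℝ) / 3 ≤ ∑ b : V,
      (if (Acc near L a b ∧ a ∈ N x ∧ b ∈ N x) then (1 : ℝ) else 0) := by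
    intro a ha
    have h1 : (d : ℝ) / 3 ≤ (A \ near a).card := by
      have := hsd A a
      linarith
    have h2 : ∑ c ∈ A \ near a, (1 : ℝ) ≤ ∑ b : V,
      (if (Acc near L a b ∧ a ∈ N x ∧ b ∈ N x) then (1 : ℝ) else 0) := by
      rw [← Finset.sum_filter]
      refine Finset.sum_le_sum_of_subset_of_nonneg ?_ (fun _ _ _ => zero_le_one)
      intro c hc'
      simp only [hA, Finset.mem_sdiff] at ha hc'
      refine Finset.mem_filter.mpr ⟨Finset.mem_univ _, ?_⟩
      exact ⟨⟨ha.2, hc'.1.2, hc'.2⟩, ha.1, hc'.1.1⟩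
    rw [Finset.sum_const, nsmul_eq_mul, mul_one] at h2
    linarith
  have hnn : ∀ a : V, 0 ≤ ∑ b : V,
      (if (Acc near L a b ∧ a ∈ N x ∧ b ∈ N x) then (1 : ℝ) else 0) := by
    intro a
    refine Finset.sum_nonneg ?_
    intro c _
    split_ifs <;> norm_num
  have h1 : (d : ℝ) / 3 ≤ A.card := by linarith
  calc ((d : ℝ) / 3) ^ 2 = (d : ℝ) / 3 * ((d : ℝ) / 3) := by ring
    _ ≤ A.card * ((d : ℝ) / 3) := mul_le_mul_of_nonneg_right h1 (by positivity)
    _ = ∑ a ∈ A, ((d : ℝ) / 3) := by rw [Finset.sum_const, nsmul_eq_mul]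
    _ ≤ ∑ a ∈ A, ∑ b : V, (if (Acc near L a b ∧ a ∈ N x ∧ b ∈ N x) then (1 : ℝ) else 0) :=
        Finset.sum_le_sum (fun a ha => hin a ha)
    _ ≤ _ := Finset.sum_le_sum_of_subset_of_nonneg (Finset.subset_univ _)
        (fun a _ _ => hnn a)

open Classical in
/-- first part of the potential -/
noncomputable def phi1 (near : V → Finset V) (N : V → Finset V) (d : ℕ) (q : ℝ) (k r : ℕ)
    (L : List (V × V × ℕ)) (x : V) : ℝ :=
  if ¬ Cov N L k x ∧ 2 * cc near N L x ≤ d then q ^ r else 0

/-- second part of the potential -/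
noncomputable def phi2 (near : V → Finset V) (N : V → Finset V) (d : ℕ) (g : ℝ) (r : ℕ)
    (L : List (V × V × ℕ)) (x : V) : ℝ :=
  2 ^ (cc near N L x) / 2 ^ (d / 2) * g ^ r

open Classical in
/-- the state after trying `a, b` -/
noncomputable def stL (near : V → Finset V) (L : List (V × V × ℕ)) (k : ℕ) (a b : V) :
    List (V × V × ℕ) :=
  if Acc near L a b then (a, b, k) :: L else L

omit [Fintype V] in
theorem stL_subset (near : V → Finset V) (L : List (V × V × ℕ)) (k : ℕ) (a b : V) :
    ∀ p ∈ L, p ∈ stL near L k a b := by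
  intro p hp
  unfold stL
  split_ifs
  · exact List.mem_cons_of_mem _ hp
  · exact hp

omit [Fintype V] in
theorem cc_le_stL (near : V → Finset V) (N : V → Finset V) (L : List (V × V × ℕ)) (k : ℕ)
    (a b x : V) : cc near N L x ≤ cc near N (stL near L k a b) x := by
  unfold stL
  split_ifs
  · refine Finset.card_le_card (Finset.inter_subset_inter_left ?_)
    exact Finset.subset_union_right
  · exact le_refl _

theorem phi1_step (near : V → Finset V)
    (hcard : ∀ a, (near a).card ≤ 5) (N : V → Finset V) (L : List (V × V × ℕ)) (k : ℕ)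
    (d : ℕ) (hd : 60 ≤ d) (x : V) (hN : (N x).card = d)
    (q : ℝ) (hq0 : 0 ≤ q)
    (hq : (Fintype.card V : ℝ) ^ 2 - ((d : ℝ) / 3) ^ 2 ≤ (Fintype.card V : ℝ) ^ 2 * q) (r : ℕ) :
    ∑ a : V, ∑ b : V, phi1 near N d q k r (stL near L k a b) x ≤
      (Fintype.card V : ℝ) ^ 2 * phi1 near N d q k (r + 1) L x := by
  classical
  by_cases hx : ¬ Cov N L k x ∧ 2 * cc near N L x ≤ d
  · have h1 : ∀ a b : V, phi1 near N d q k r (stL near L k a b) x ≤
        q ^ r * (1 - if (Acc near L a b ∧ a ∈ N x ∧ b ∈ N x)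
          then (1 : ℝ) else 0) := by
      intro a b
      by_cases hg : Acc near L a b ∧ a ∈ N x ∧ b ∈ N x
      · have hcov : Cov N (stL near L k a b) k x := by
          rw [stL, if_pos hg.1]
          exact ⟨(a, b, k), List.mem_cons_self, rfl, hg.2.1, hg.2.2⟩
        rw [phi1, if_neg (fun hh => hh.1 hcov), if_pos hg]
        simp
      · rw [if_neg hg, sub_zero, mul_one, phi1]
        split_ifs
        · exact le_refl _
        · positivity
    have h2 : ∑ a : V, ∑ b : V, phi1 near N d q k r (stL near L k a b) x ≤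
        ∑ a : V, ∑ b : V, q ^ r *
          (1 - if (Acc near L a b ∧ a ∈ N x ∧ b ∈ N x) then (1 : ℝ) else 0) :=
      Finset.sum_le_sum (fun a _ => Finset.sum_le_sum (fun b _ => h1 a b))
    have h3 : ∑ a : V, ∑ b : V, q ^ r *
          (1 - if (Acc near L a b ∧ a ∈ N x ∧ b ∈ N x) then (1 : ℝ) else 0) =
        q ^ r * ((Fintype.card V : ℝ) ^ 2 - ∑ a : V, ∑ b : V,
          (if (Acc near L a b ∧ a ∈ N x ∧ b ∈ N x) then (1 : ℝ) else 0)) := by
      simp only [← Finset.mul_sum, Finset.sum_sub_distrib, Finset.sum_const,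
        Finset.card_univ, nsmul_eq_mul, mul_one]
      ring
    have h4 := good_pairs near hcard N L d hd x hN hx.2
    rw [h3] at h2
    refine h2.trans ?_
    rw [phi1, if_pos hx, pow_succ]
    have h5 : (Fintype.card V : ℝ) ^ 2 - ∑ a : V, ∑ b : V,
          (if (Acc near L a b ∧ a ∈ N x ∧ b ∈ N x) then (1 : ℝ) else 0) ≤
          (Fintype.card V : ℝ) ^ 2 * q := by
      linarith
    calc q ^ r * _ ≤ q ^ r * ((Fintype.card V : ℝ) ^ 2 * q) :=
          mul_le_mul_of_nonneg_left h5 (by positivity)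
      _ = _ := by ring
  · have h1 : ∀ a b : V, phi1 near N d q k r (stL near L k a b) x = 0 := by
      intro a b
      rw [phi1, if_neg]
      intro hh
      apply hx
      refine ⟨fun hcov => hh.1 ?_, ?_⟩
      · obtain ⟨p, hp, h⟩ := hcov
        exact ⟨p, stL_subset near L k a b p hp, h⟩
      · have := cc_le_stL near N L k a b x
        have := hh.2
        omega
    rw [phi1, if_neg hx]
    simp [h1]

theorem phi2_step (near : V → Finset V)
    (hcard : ∀ a, (near a).card ≤ 5) (hsymm : ∀ a b, a ∈ near b → b ∈ near a)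
    (N : V → Finset V) (L : List (V × V × ℕ)) (k : ℕ)
    (d : ℕ) (x : V) (hN : (N x).card = d) (g : ℝ) (hg0 : 0 ≤ g)
    (hg : ((Fintype.card V : ℝ) + 35 * d) ^ 2 ≤ (Fintype.card V : ℝ) ^ 2 * g) (r : ℕ) :
    ∑ a : V, ∑ b : V, phi2 near N d g r (stL near L k a b) x ≤
      (Fintype.card V : ℝ) ^ 2 * phi2 near N d g (r + 1) L x := by
  classical
  have h1 : ∀ a b : V, phi2 near N d g r (stL near L k a b) x ≤
      phi2 near N d g r L x * ((2 : ℝ) ^ (N x ∩ near a).card * (2 : ℝ) ^ (N x ∩ near b).card) := by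
    intro a b
    have h2 : cc near N (stL near L k a b) x ≤
        cc near N L x + (N x ∩ near a).card + (N x ∩ near b).card := by
      unfold stL
      split_ifs
      · exact cc_step near N L a b k x
      · omega
    have h3 : (2 : ℝ) ^ (cc near N (stL near L k a b) x) ≤ 2 ^ (cc near N L x) *
        ((2 : ℝ) ^ (N x ∩ near a).card * (2 : ℝ) ^ (N x ∩ near b).card) := by
      calc (2 : ℝ) ^ (cc near N (stL near L k a b) x) ≤ _ :=
            pow_le_pow_right₀ one_le_two h2
        _ = _ := by rw [pow_add, pow_add]; ring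
    unfold phi2
    calc (2 : ℝ) ^ (cc near N (stL near L k a b) x) / 2 ^ (d / 2) * g ^ r ≤
        (2 ^ (cc near N L x) *
        ((2 : ℝ) ^ (N x ∩ near a).card * (2 : ℝ) ^ (N x ∩ near b).card)) / 2 ^ (d / 2) * g ^ r := by
          gcongr
      _ = _ := by ring
  have h2 : ∑ a : V, ∑ b : V, phi2 near N d g r (stL near L k a b) x ≤
      ∑ a : V, ∑ b : V, phi2 near N d g r L x *
        ((2 : ℝ) ^ (N x ∩ near a).card * (2 : ℝ) ^ (N x ∩ near b).card) :=
    Finset.sum_le_sum (fun a _ => Finset.sum_le_sum (fun b _ => h1 a b))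
  have h3 : ∑ a : V, ∑ b : V, phi2 near N d g r L x *
        ((2 : ℝ) ^ (N x ∩ near a).card * (2 : ℝ) ^ (N x ∩ near b).card) =
      phi2 near N d g r L x * (∑ a : V, (2 : ℝ) ^ (N x ∩ near a).card) ^ 2 := by
    simp only [← Finset.mul_sum, ← Finset.sum_mul]
    ring
  have h4 : (∑ a : V, (2 : ℝ) ^ (N x ∩ near a).card) ^ 2 ≤ (Fintype.card V : ℝ) ^ 2 * g := by
    refine le_trans ?_ hg
    have h5 := sum_pow_le near hcard hsymm (N x)
    rw [hN] at h5
    have h6 : 0 ≤ ∑ a : V, (2 : ℝ) ^ (N x ∩ near a).card :=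
      Finset.sum_nonneg (fun a _ => by positivity)
    exact pow_le_pow_left₀ h6 h5 2
  have h5 : 0 ≤ phi2 near N d g r L x := by unfold phi2; positivity
  calc _ ≤ _ := h2
    _ = _ := h3
    _ ≤ phi2 near N d g r L x * ((Fintype.card V : ℝ) ^ 2 * g) :=
        mul_le_mul_of_nonneg_left h4 h5
    _ = _ := by unfold phi2; rw [pow_succ]; ring

omit [Fintype V] in
theorem phi1_nonneg (near : V → Finset V) (N : V → Finset V) (d : ℕ) (q : ℝ) (hq0 : 0 ≤ q)
    (k r : ℕ) (L : List (V × V × ℕ)) (x : V) : 0 ≤ phi1 near N d q k r L x := by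
  unfold phi1
  split_ifs
  · positivity
  · exact le_refl _

omit [Fintype V] in
theorem phi2_nonneg (near : V → Finset V) (N : V → Finset V) (d : ℕ) (g : ℝ) (hg0 : 0 ≤ g)
    (r : ℕ) (L : List (V × V × ℕ)) (x : V) : 0 ≤ phi2 near N d g r L x := by
  unfold phi2
  positivity

/-- One group. -/
theorem core (near : V → Finset V)
    (hcard : ∀ a, (near a).card ≤ 5) (hsymm : ∀ a b, a ∈ near b → b ∈ near a)
    (N : V → Finset V) (d : ℕ) (hd : 60 ≤ d) (hN : ∀ x, (N x).card = d)
    (q g : ℝ) (hq0 : 0 ≤ q)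
    (hq : (Fintype.card V : ℝ) ^ 2 - ((d : ℝ) / 3) ^ 2 ≤ (Fintype.card V : ℝ) ^ 2 * q)
    (hg1 : 1 ≤ g) (hg : ((Fintype.card V : ℝ) + 35 * d) ^ 2 ≤ (Fintype.card V : ℝ) ^ 2 * g)
    (hV : 0 < Fintype.card V) (k R : ℕ) (e : ℝ) (he : 0 ≤ e) :
    ∀ (r : ℕ) (L : List (V × V × ℕ)), Good near L →
      ∑ x : V, (phi1 near N d q k r L x + phi2 near N d g (r + R) L x) + e < 1 →
      ∃ L' : List (V × V × ℕ), Good near L' ∧ (∀ p ∈ L, p ∈ L') ∧ (∀ x, Cov N L' k x) ∧
        ∑ x : V, phi2 near N d g R L' x + e < 1 := by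
  classical
  have hg0 : 0 ≤ g := zero_le_one.trans hg1
  intro r
  induction r with
  | zero =>
    intro L h hlt
    have hnn : ∀ y : V, 0 ≤ phi1 near N d q k 0 L y + phi2 near N d g (0 + R) L y := fun y =>
      add_nonneg (phi1_nonneg near N d q hq0 k 0 L y) (phi2_nonneg near N d g hg0 _ L y)
    refine ⟨L, h, fun p hp => hp, ?_, ?_⟩
    · intro x
      by_contra hx
      have h1 : phi1 near N d q k 0 L x + phi2 near N d g (0 + R) L x < 1 :=
        (Finset.single_le_sum (fun y _ => hnn y) (Finset.mem_univ x)).trans_lt (by linarith)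
      by_cases h2 : 2 * cc near N L x ≤ d
      · have h3 : phi1 near N d q k 0 L x = 1 := by
          rw [phi1, if_pos ⟨hx, h2⟩, pow_zero]
        have h4 := phi2_nonneg near N d g hg0 (0 + R) L x
        linarith
      · have h3 : d / 2 ≤ cc near N L x := by omega
        have h4 : 1 ≤ phi2 near N d g (0 + R) L x := by
          unfold phi2
          have h6 : (1 : ℝ) ≤ 2 ^ cc near N L x / 2 ^ (d / 2) := by
            rw [le_div_iff₀ (by positivity), one_mul]
            exact pow_le_pow_right₀ one_le_two h3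
          have h7 : (1 : ℝ) ≤ g ^ (0 + R) := one_le_pow₀ hg1
          nlinarith
        have h5 := phi1_nonneg near N d q hq0 k 0 L x
        linarith
    · refine lt_of_le_of_lt ?_ hlt
      have : ∑ x : V, phi2 near N d g R L x ≤
          ∑ x : V, (phi1 near N d q k 0 L x + phi2 near N d g (0 + R) L x) := by
        refine Finset.sum_le_sum (fun x _ => ?_)
        rw [Nat.zero_add]
        have := phi1_nonneg near N d q hq0 k 0 L x
        linarith
      linarith
  | succ r ih =>
    intro L h hlt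
    have hex : ∃ a b : V, ∑ x : V, (phi1 near N d q k r (stL near L k a b) x +
        phi2 near N d g (r + R) (stL near L k a b) x) + e < 1 := by
      by_contra hcon
      push Not at hcon
      have h1 : (Fintype.card V : ℝ) ^ 2 * (1 - e) ≤ ∑ a : V, ∑ b : V,
          ∑ x : V, (phi1 near N d q k r (stL near L k a b) x +
            phi2 near N d g (r + R) (stL near L k a b) x) := by
        calc (Fintype.card V : ℝ) ^ 2 * (1 - e) = ∑ a : V, ∑ b : V, (1 - e) := by
              simp only [Finset.sum_const, Finset.card_univ, nsmul_eq_mul]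
              ring
          _ ≤ _ := Finset.sum_le_sum (fun a _ => Finset.sum_le_sum (fun b _ => by
              have := hcon a b
              linarith))
      have h2 : ∑ a : V, ∑ b : V,
          ∑ x : V, (phi1 near N d q k r (stL near L k a b) x +
            phi2 near N d g (r + R) (stL near L k a b) x) =
          ∑ x : V, ∑ a : V, ∑ b : V, (phi1 near N d q k r (stL near L k a b) x +
            phi2 near N d g (r + R) (stL near L k a b) x) := by
        have e1 : ∀ a : V, ∑ b : V,
          ∑ x : V, (phi1 near N d q k r (stL near L k a b) x +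
            phi2 near N d g (r + R) (stL near L k a b) x) =
            ∑ x : V, ∑ b : V, (phi1 near N d q k r (stL near L k a b) x +
            phi2 near N d g (r + R) (stL near L k a b) x) :=
          fun a => Finset.sum_comm
        simp only [e1]
        exact Finset.sum_comm
      have h3 : ∀ x : V, ∑ a : V, ∑ b : V, (phi1 near N d q k r (stL near L k a b) x +
            phi2 near N d g (r + R) (stL near L k a b) x) ≤
          (Fintype.card V : ℝ) ^ 2 * (phi1 near N d q k (r + 1) L x +
            phi2 near N d g (r + 1 + R) L x) := by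
        intro x
        have h4 := phi1_step near hcard N L k d hd x (hN x) q hq0 hq r
        have h5 := phi2_step near hcard hsymm N L k d x (hN x) g hg0 hg (r + R)
        have h6 : r + R + 1 = r + 1 + R := by omega
        rw [h6] at h5
        simp only [Finset.sum_add_distrib]
        linarith
      have h4 : ∑ x : V, ∑ a : V, ∑ b : V, (phi1 near N d q k r (stL near L k a b) x +
            phi2 near N d g (r + R) (stL near L k a b) x) ≤
          (Fintype.card V : ℝ) ^ 2 * ∑ x : V, (phi1 near N d q k (r + 1) L x +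
            phi2 near N d g (r + 1 + R) L x) := by
        rw [Finset.mul_sum]
        exact Finset.sum_le_sum (fun x _ => h3 x)
      have h5 : (0 : ℝ) < (Fintype.card V : ℝ) ^ 2 := by positivity
      rw [h2] at h1
      have h6 : (Fintype.card V : ℝ) ^ 2 * ∑ x : V, (phi1 near N d q k (r + 1) L x +
            phi2 near N d g (r + 1 + R) L x) < (Fintype.card V : ℝ) ^ 2 * (1 - e) :=
        mul_lt_mul_of_pos_left (by linarith) h5
      linarith
    obtain ⟨a, b, hab⟩ := hex
    have hgood : Good near (stL near L k a b) := by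
      unfold stL
      split_ifs with hacc
      · exact ⟨hacc, h⟩
      · exact h
    obtain ⟨L', h1, h2, h3, h4⟩ := ih _ hgood hab
    exact ⟨L', h1, fun p hp => h2 p (stL_subset near L k a b p hp), h3, h4⟩

/-- All groups. -/
theorem groups (near : V → Finset V)
    (hcard : ∀ a, (near a).card ≤ 5) (hsymm : ∀ a b, a ∈ near b → b ∈ near a)
    (N : V → Finset V) (d : ℕ) (hd : 60 ≤ d) (hN : ∀ x, (N x).card = d)
    (q g : ℝ) (hq0 : 0 ≤ q)
    (hq : (Fintype.card V : ℝ) ^ 2 - ((d : ℝ) / 3) ^ 2 ≤ (Fintype.card V : ℝ) ^ 2 * q)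
    (hg1 : 1 ≤ g) (hg : ((Fintype.card V : ℝ) + 35 * d) ^ 2 ≤ (Fintype.card V : ℝ) ^ 2 * g)
    (hV : 0 < Fintype.card V) (m : ℕ) :
    ∀ (G : ℕ) (L : List (V × V × ℕ)), Good near L →
      ∑ x : V, phi2 near N d g (G * m) L x + G * (Fintype.card V * q ^ m) < 1 →
      ∃ L' : List (V × V × ℕ), Good near L' ∧ (∀ p ∈ L, p ∈ L') ∧
        ∀ k < G, ∀ x, Cov N L' k x := by
  intro G
  induction G with
  | zero =>
    intro L h _
    exact ⟨L, h, fun p hp => hp, fun k hk => absurd hk (Nat.not_lt_zero k)⟩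
  | succ G ih =>
    intro L h hlt
    have h1 : ∑ x : V, (phi1 near N d q G m L x + phi2 near N d g (m + G * m) L x) +
        G * (Fintype.card V * q ^ m) < 1 := by
      refine lt_of_le_of_lt ?_ hlt
      have h2 : ∑ x : V, phi1 near N d q G m L x ≤ Fintype.card V * q ^ m := by
        calc ∑ x : V, phi1 near N d q G m L x ≤ ∑ x : V, q ^ m := by
              refine Finset.sum_le_sum (fun x _ => ?_)
              unfold phi1
              split_ifs
              · exact le_refl _
              · positivity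
          _ = _ := by rw [Finset.sum_const, Finset.card_univ, nsmul_eq_mul]
      have h3 : m + G * m = (G + 1) * m := by ring
      rw [Finset.sum_add_distrib, h3]
      push_cast
      linarith
    obtain ⟨L1, g1, g2, g3, g4⟩ := core near hcard hsymm N d hd hN q g hq0 hq hg1 hg hV G
      (G * m) (G * (Fintype.card V * q ^ m)) (by positivity) m L h h1
    obtain ⟨L2, f1, f2, f3⟩ := ih L1 g1 g4
    refine ⟨L2, f1, fun p hp => f2 p (g2 p hp), ?_⟩
    intro k hk x
    rcases Nat.lt_succ_iff_lt_or_eq.mp hk with h5 | h5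
    · exact f3 k h5 x
    · rw [h5]
      obtain ⟨p, hp, h6⟩ := g3 x
      exact ⟨p, f2 p hp, h6⟩

end Core

/-- The cyclic neighbourhood. -/
def near5 {n : ℕ} [NeZero n] (a : Fin n) : Finset (Fin n) := {a, a + 1, a + 2, a - 1, a - 2}

/-- The two hubs of the pair with number `i`. -/
def hubOf {V : Type} (L : List (V × V × ℕ)) (i : Fin L.length) (b : Bool) : V :=
  if b then (L.get i).2.1 else (L.get i).1

theorem hub_mem_blk {V : Type} [DecidableEq V] (near : V → Finset V)
    (L : List (V × V × ℕ)) (i : Fin L.length) (b : Bool) (v : V)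
    (hv : v ∈ near (hubOf L i b)) : v ∈ blk near L := by
  induction L with
  | nil => exact i.elim0
  | cons p L ih =>
    rcases Fin.eq_zero_or_eq_succ i with h | ⟨j, h⟩
    · subst h
      unfold blk
      cases b
      · exact Finset.mem_union_left _ (Finset.mem_union_left _ hv)
      · exact Finset.mem_union_left _ (Finset.mem_union_right _ hv)
    · subst h
      exact Finset.mem_union_right _ (ih j hv)

theorem sep_of_good {V : Type} [DecidableEq V] (near : V → Finset V)
    (hsymm : ∀ a b, a ∈ near b → b ∈ near a)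
    (L : List (V × V × ℕ)) (h : Good near L) :
    ∀ (i : Fin L.length) (b : Bool) (i' : Fin L.length) (b' : Bool),
      hubOf L i' b' ∈ near (hubOf L i b) → i = i' ∧ b = b' := by
  induction L with
  | nil => intro i; exact i.elim0
  | cons p L ih =>
    obtain ⟨⟨h1, h2, h3⟩, h4⟩ := h
    have hhead : ∀ b, hubOf (p :: L) 0 b ∉ blk near L := by
      intro b
      cases b
      · exact h1
      · exact h2
    intro i b i' b' hn
    rcases Fin.eq_zero_or_eq_succ i with hi | ⟨j, hi⟩ <;>
      rcases Fin.eq_zero_or_eq_succ i' with hi' | ⟨j', hi'⟩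
    · subst hi; subst hi'
      refine ⟨rfl, ?_⟩
      cases b <;> cases b'
      · rfl
      · exact absurd hn h3
      · exact absurd (hsymm _ _ hn) h3
      · rfl
    · subst hi; subst hi'
      exact absurd (hub_mem_blk near L j' b' _ (hsymm _ _ hn)) (hhead b)
    · subst hi; subst hi'
      exact absurd (hub_mem_blk near L j b _ hn) (hhead b')
    · subst hi; subst hi'
      obtain ⟨e1, e2⟩ := ih h4 j b j' b' hn
      exact ⟨by rw [e1], e2⟩

/-- Groups of pairs of hubs: all hubs at cyclic distance at least three, every vertex complete to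
a pair of every group. -/
theorem exists_pair_groups {n : ℕ} [NeZero n] (N : Fin n → Finset (Fin n)) (d m G : ℕ)
    (hN : ∀ x, (N x).card = d) (hd : 60 ≤ d)
    (hnum : (n : ℝ) * (1 + 35 * d / n) ^ (2 * (G * m)) / 2 ^ (d / 2) +
      G * ((n : ℝ) * (1 - ((d : ℝ) / (3 * n)) ^ 2) ^ m) < 1) :
    ∃ (p : ℕ) (w : Fin p → Bool → Fin n) (gr : Fin p → ℕ),
      (∀ i b i' b', w i b = w i' b' → i = i' ∧ b = b') ∧
      (∀ i b i' b', w i b + 1 ≠ w i' b' ∧ w i b + 2 ≠ w i' b') ∧
      ∀ x, ∀ k < G, ∃ i, gr i = k ∧ ∀ b, w i b ∈ N x := by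
  classical
  have hn : 0 < n := Nat.pos_of_ne_zero (NeZero.ne n)
  have hnR : (0 : ℝ) < n := by exact_mod_cast hn
  have hdn : d ≤ n := by
    have := Finset.card_le_univ (N 0)
    rw [hN, Fintype.card_fin] at this
    exact this
  have hdnR : (d : ℝ) ≤ n := by exact_mod_cast hdn
  have hn60 : 60 ≤ n := hd.trans hdn
  have hself : ∀ a : Fin n, a ∈ near5 a := fun a => by simp [near5]
  have hcard : ∀ a : Fin n, (near5 a).card ≤ 5 := fun a => Finset.card_le_five
  have hsymm : ∀ a b : Fin n, a ∈ near5 b → b ∈ near5 a := by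
    intro a b h
    simp only [near5, Finset.mem_insert, Finset.mem_singleton] at h ⊢
    rcases h with rfl | rfl | rfl | rfl | rfl <;> simp
  have hq0 : (0 : ℝ) ≤ 1 - ((d : ℝ) / (3 * n)) ^ 2 := by
    have h1 : (d : ℝ) / (3 * n) ≤ 1 := by
      rw [div_le_one (by positivity)]
      linarith
    have h2 : ((d : ℝ) / (3 * n)) ^ 2 ≤ 1 := pow_le_one₀ (by positivity) h1
    linarith
  have hq : (Fintype.card (Fin n) : ℝ) ^ 2 - ((d : ℝ) / 3) ^ 2 ≤
      (Fintype.card (Fin n) : ℝ) ^ 2 * (1 - ((d : ℝ) / (3 * n)) ^ 2) := by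
    rw [Fintype.card_fin]
    apply le_of_eq
    field_simp
  have hg1 : (1 : ℝ) ≤ (1 + 35 * (d : ℝ) / n) ^ 2 := by
    apply one_le_pow₀
    have : (0 : ℝ) ≤ 35 * (d : ℝ) / n := by positivity
    linarith
  have hg : ((Fintype.card (Fin n) : ℝ) + 35 * d) ^ 2 ≤
      (Fintype.card (Fin n) : ℝ) ^ 2 * (1 + 35 * (d : ℝ) / n) ^ 2 := by
    rw [Fintype.card_fin]
    apply le_of_eq
    field_simp
  have hV : 0 < Fintype.card (Fin n) := by rw [Fintype.card_fin]; exact hn
  obtain ⟨L, h1, _, h3⟩ := groups near5 hcard hsymm N d hd hN _ _ hq0 hq hg1 hg hV m G [] trivial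
    (by
      refine lt_of_le_of_lt (le_of_eq ?_) hnum
      rw [Fintype.card_fin]
      congr 1
      have h2 : ∀ x : Fin n, phi2 near5 N d ((1 + 35 * (d : ℝ) / n) ^ 2) (G * m) [] x =
          (1 + 35 * (d : ℝ) / n) ^ (2 * (G * m)) / 2 ^ (d / 2) := by
        intro x
        unfold phi2 cc blk
        rw [Finset.inter_empty, Finset.card_empty, pow_zero, ← pow_mul]
        ring
      simp only [h2]
      rw [Finset.sum_const, Finset.card_univ, Fintype.card_fin, nsmul_eq_mul]
      ring)
  have hsep := sep_of_good near5 hsymm L h1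
  refine ⟨L.length, hubOf L, fun i => (L.get i).2.2, ?_, ?_, ?_⟩
  · intro i b i' b' h
    exact hsep i b i' b' (h ▸ hself _)
  · intro i b i' b'
    have e1 : ∀ w : Fin n, w + 1 ≠ w := by
      intro w h
      have h2 : (1 : Fin n) = 0 := by simpa using h
      have h3 := congrArg Fin.val h2
      rw [Fin.val_one', Fin.val_zero, Nat.mod_eq_of_lt (by omega)] at h3
      omega
    have e2 : ∀ w : Fin n, w + 2 ≠ w := by
      intro w h
      have h2 : (2 : Fin n) = 0 := by simpa using h
      have h3 := congrArg Fin.val h2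
      have h4 : ((2 : Fin n) : ℕ) = 2 % n := rfl
      rw [h4, Fin.val_zero, Nat.mod_eq_of_lt (by omega)] at h3
      omega
    constructor
    · intro h
      have h2 : hubOf L i' b' ∈ near5 (hubOf L i b) := by rw [← h]; simp [near5]
      obtain ⟨rfl, rfl⟩ := hsep i b i' b' h2
      exact e1 _ h
    · intro h
      have h2 : hubOf L i' b' ∈ near5 (hubOf L i b) := by rw [← h]; simp [near5]
      obtain ⟨rfl, rfl⟩ := hsep i b i' b' h2
      exact e2 _ h
  · intro x k hk
    obtain ⟨p, hp, h2, h4, h5⟩ := h3 k hk x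
    obtain ⟨i, hi⟩ := List.get_of_mem hp
    refine ⟨i, by change (L.get i).2.2 = k; rw [hi]; exact h2, ?_⟩
    intro b
    cases b
    · change (L.get i).1 ∈ N x
      rw [hi]; exact h4
    · change (L.get i).2.1 ∈ N x
      rw [hi]; exact h5

end Pool.Agent.H72.PR
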